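import Mathlib
import Pool.Agent.X81.EndRatio

/-!
# MP_e2735d_co, Q1: the limiting set is `[0, 1]`

`LGraph` is a finite undirected graph, loops allowed, without multiple edges.  The set of limits of
`|Aut G| / |End_s G|` along sequences of graphs whose number of vertices tends to infinity is the
whole interval `[0, 1]`.
-/

set_option autoImplicit false

open Classical Finset Filter Topology

namespace Pool.Agent.Results.MP_e2735d_co.LimitSetInterval

open Pool.Agent.X81.EndRatio

/-- A finite undirected graph on `{0, …, n-1}`, without multiple edges, loops permitted. -/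
structure LGraph where
  /-- number of vertices -/
  n : ℕ
  /-- adjacency; `adj x x` means that there is a loop at `x` -/
  adj : Fin n → Fin n → Prop
  symm : ∀ x y, adj x y → adj y x

/-- strict endomorphisms -/
def LGraph.EndS (G : LGraph) : Set (Fin G.n → Fin G.n) :=
  {f | ∀ x y, G.adj x y → G.adj (f x) (f y)}

/-- automorphisms: bijections preserving edges and non-edges -/
def LGraph.Aut (G : LGraph) : Set (Fin G.n → Fin G.n) :=
  {f | Function.Bijective f ∧ ∀ x y, G.adj x y ↔ G.adj (f x) (f y)}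

/-- `q(G) = |Aut(G)| / |End_s(G)|` -/
noncomputable def LGraph.q (G : LGraph) : ℝ := (Nat.card G.Aut : ℝ) / (Nat.card G.EndS : ℝ)

/-- the limiting set -/
def limitingSet : Set ℝ :=
  {x | ∃ G : ℕ → LGraph, Tendsto (fun k => (G k).n) atTop atTop ∧
    Tendsto (fun k => (G k).q) atTop (𝓝 x)}

lemma aut_eq (G : LGraph) : G.Aut = BijR G.adj := by
  ext f
  constructor
  · rintro ⟨hb, h⟩
    exact ⟨fun x y hxy => (h x y).mp hxy, hb⟩
  · rintro ⟨hf, hb⟩
    refine ⟨hb, fun x y => ⟨hf x y, fun hxy => ?_⟩⟩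
    let E := {p : Fin G.n × Fin G.n // G.adj p.1 p.2}
    let F : E → E := fun p => ⟨(f p.1.1, f p.1.2), hf _ _ p.2⟩
    have hinj : Function.Injective F := by
      rintro ⟨⟨a, b⟩, hab⟩ ⟨⟨c, d⟩, hcd⟩ h
      have h1 := congrArg Subtype.val h
      have h2 := Prod.ext_iff.mp h1
      have h3 : a = c := hb.1 h2.1
      have h4 : b = d := hb.1 h2.2
      subst h3; subst h4; rfl
    obtain ⟨⟨⟨a, b⟩, hab⟩, h⟩ := Finite.injective_iff_surjective.mp hinj ⟨(f x, f y), hxy⟩
    have h1 := congrArg Subtype.val h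
    have h2 := Prod.ext_iff.mp h1
    have h3 : a = x := hb.1 h2.1
    have h4 : b = y := hb.1 h2.2
    rw [← h3, ← h4]
    exact hab

/-- every finite symmetric relation is realised -/
lemma realise {V : Type} [Finite V] (r : V → V → Prop) (hs : ∀ x y, r x y → r y x) :
    ∃ G : LGraph, G.n = Nat.card V ∧
      G.q = (Nat.card (BijR r) : ℝ) / (Nat.card (EndR r) : ℝ) := by
  let e : V ≃ Fin (Nat.card V) := Finite.equivFin V
  let G : LGraph := ⟨Nat.card V, fun x y => r (e.symm x) (e.symm y), fun x y h => hs _ _ h⟩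
  refine ⟨G, rfl, ?_⟩
  have hE : ∀ f : V → V, f ∈ EndR r ↔ (e.arrowCongr e f) ∈ EndR G.adj := by
    intro f
    constructor
    · intro h x y hxy
      show r (e.symm (e (f (e.symm x)))) (e.symm (e (f (e.symm y))))
      rw [e.symm_apply_apply, e.symm_apply_apply]
      exact h _ _ hxy
    · intro h x y hxy
      have h1 := h (e x) (e y) (by
        show r (e.symm (e x)) (e.symm (e y))
        rw [e.symm_apply_apply, e.symm_apply_apply]
        exact hxy)
      have h2 : r (e.symm (e (f (e.symm (e x))))) (e.symm (e (f (e.symm (e y))))) := h1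
      simpa using h2
  have hB : ∀ f : V → V, f ∈ BijR r ↔ (e.arrowCongr e f) ∈ BijR G.adj := by
    intro f
    have h1 : Function.Bijective f ↔ Function.Bijective (e.arrowCongr e f) := by
      have : (e.arrowCongr e f) = e ∘ f ∘ e.symm := rfl
      rw [this, e.comp_bijective, e.symm.bijective.of_comp_iff]
    exact and_congr (hE f) h1
  have c1 : Nat.card G.EndS = Nat.card (EndR r) :=
    (Nat.card_congr (Equiv.subtypeEquiv (e.arrowCongr e) hE)).symm
  have c2 : Nat.card G.Aut = Nat.card (BijR r) := by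
    rw [aut_eq]
    exact (Nat.card_congr (Equiv.subtypeEquiv (e.arrowCongr e) hB)).symm
  unfold LGraph.q
  rw [c1, c2]

/-! ### counts for the basic graph -/

lemma card_lower (m : ℕ) : m.factorial ≤ Nat.card (BijR (rW m)) := by
  have h1 : Nat.card (Equiv.Perm (Fin m)) = m.factorial := by
    rw [Nat.card_perm, Nat.card_fin]
  rw [← h1]
  let F : Equiv.Perm (Fin m) → BijR (rW m) := fun σ =>
    ⟨fun p => (p.1, p.2.map σ), by
      constructor
      · rintro ⟨l, s⟩ ⟨l', s'⟩ h
        have key : ∀ s s' : Option (Fin m), (idx s = idx s' ↔ idx (s.map σ) = idx (s'.map σ)) ∧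
            (idx s < m ↔ idx (s.map σ) < m) ∧ (idx s = m ↔ idx (s.map σ) = m) := by
          intro s s'
          refine ⟨?_, ?_, ?_⟩
          · constructor
            · intro h; rw [idx_inj h]
            · intro h
              have h2 := idx_inj h
              have h3 : Function.Injective (Option.map σ) := Option.map_injective σ.injective
              rw [h3 h2]
          · rcases s with _ | s
            · exact Iff.rfl
            · exact ⟨fun _ => (σ s).2, fun _ => s.2⟩
          · rcases s with _ | s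
            · exact Iff.rfl
            · have a := (σ s).2
              have b := s.2
              exact ⟨fun h => absurd h b.ne, fun h => absurd h a.ne⟩
        obtain ⟨k1, k2, k3⟩ := key s s'
        obtain ⟨_, k5, k6⟩ := key s' s
        have hx : ((idx s < m ∧ idx s' < m ∧ idx s ≠ idx s') ∨ (idx s = m ∧ idx s' = m)) →
            ((idx (s.map σ) < m ∧ idx (s'.map σ) < m ∧ idx (s.map σ) ≠ idx (s'.map σ)) ∨
              (idx (s.map σ) = m ∧ idx (s'.map σ) = m)) := by
          rintro (⟨a, b, c⟩ | ⟨a, b⟩)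
          · exact Or.inl ⟨k2.mp a, k5.mp b, fun h1 => c (k1.mpr h1)⟩
          · exact Or.inr ⟨k3.mp a, k6.mp b⟩
        show adjN m l.val (idx (s.map σ)) l'.val (idx (s'.map σ))
        have h' : adjN m l.val (idx s) l'.val (idx s') := h
        unfold adjN at h'
        rcases h' with ⟨a, b⟩ | ⟨a, b⟩ | ⟨a, b, c⟩ | ⟨a, b, c⟩
        · exact Or.inl ⟨a, k1.mp b⟩
        · exact Or.inr (Or.inl ⟨a, k1.mp b⟩)
        · exact Or.inr (Or.inr (Or.inl ⟨a, b, hx c⟩))
        · exact Or.inr (Or.inr (Or.inr ⟨a, b, hx c⟩))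
      · have hinj : Function.Injective (fun p : Fin 5 × Option (Fin m) => (p.1, p.2.map σ)) := by
          rintro ⟨l, s⟩ ⟨l', s'⟩ h
          have h1 := (Prod.ext_iff.mp h).1
          have h2 := (Prod.ext_iff.mp h).2
          exact Prod.ext h1 (Option.map_injective σ.injective h2)
        exact ⟨hinj, Finite.injective_iff_surjective.mp hinj⟩⟩
  apply Nat.card_le_card_of_injective F
  intro σ τ h
  have h1 := congrFun (congrArg Subtype.val h)
  apply Equiv.ext
  intro s
  have h2 := (Prod.ext_iff.mp (h1 (0, some s))).2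
  exact Option.some_injective _ h2

lemma card_strict (m : ℕ) (hm : 4 ≤ m) : Nat.card (BijR (rW m)) < Nat.card (EndR (rW m)) := by
  rw [Nat.card_coe_set_eq, Nat.card_coe_set_eq]
  apply Set.ncard_lt_ncard
  · rw [Set.ssubset_iff_exists]
    refine ⟨fun f hf => hf.1, fun p => (p.1, none), ?_, ?_⟩
    · intro x y h
      have h' : adjN m x.1.val (idx x.2) y.1.val (idx y.2) := h
      show adjN m x.1.val m y.1.val m
      unfold adjN at *
      omega
    · rintro ⟨_, hb⟩
      have h1 : ((0 : Fin 5), (none : Option (Fin m))) = (0, some ⟨0, by omega⟩) :=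
        hb.1 (rfl : ((0 : Fin 5), (none : Option (Fin m))) = (0, none))
      have h2 := (Prod.ext_iff.mp h1).2
      exact absurd h2 (by simp)
  · exact Set.toFinite _

lemma card_upper (m : ℕ) (hm : 4 ≤ m) :
    Nat.card (EndR (rW m)) ≤ Nat.card (BijR (rW m)) + 5 ^ (5 * (m + 1)) := by
  have h1 : EndR (rW m) ⊆ BijR (rW m) ∪ (EndR (rW m) \ BijR (rW m)) := by
    intro f hf
    by_cases h : f ∈ BijR (rW m)
    · exact Or.inl h
    · exact Or.inr ⟨hf, h⟩
  rw [Nat.card_coe_set_eq, Nat.card_coe_set_eq]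
  refine (Set.ncard_le_ncard h1 (Set.toFinite _)).trans ((Set.ncard_union_le _ _).trans ?_)
  apply Nat.add_le_add_left
  have h2 : Nat.card ((Fin 5 × Option (Fin m)) → Fin 5) = 5 ^ (5 * (m + 1)) := by
    rw [Nat.card_fun, Nat.card_prod]
    simp
  rw [← h2, ← Nat.card_coe_set_eq]
  apply Nat.card_le_card_of_injective (fun f : ↥(EndR (rW m) \ BijR (rW m)) => fun p => (f.1 p).1)
  rintro ⟨f, hf⟩ ⟨g, hg⟩ h
  have key : ∀ f ∈ EndR (rW m) \ BijR (rW m), ∀ p, (f p).2 = none := by
    intro f hf p
    by_contra hne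
    obtain ⟨s, hs⟩ := Option.ne_none_iff_exists'.mp hne
    apply hf.2
    refine ⟨hf.1, end_rW m hm f hf.1 p ?_⟩
    rw [hs]; exact s.2
  apply Subtype.ext
  funext p
  exact Prod.ext (congrFun h p) ((key f hf p).trans (key g hg p).symm)

/-- the ratio of the basic graph -/
noncomputable def qm (m : ℕ) : ℝ := (Nat.card (BijR (rW m)) : ℝ) / (Nat.card (EndR (rW m)) : ℝ)

lemma qm_lt (m : ℕ) (hm : 4 ≤ m) : qm m < 1 := by
  have h1 := card_strict m hm
  unfold qm
  rw [div_lt_one (by exact_mod_cast (by omega : 0 < Nat.card (EndR (rW m))))]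
  exact_mod_cast h1

lemma qm_pos (m : ℕ) (hm : 4 ≤ m) : 0 < qm m := by
  have h1 := card_strict m hm
  have h2 := card_lower m
  have h3 := m.factorial_pos
  unfold qm
  apply div_pos
  · exact_mod_cast (by omega : 0 < Nat.card (BijR (rW m)))
  · exact_mod_cast (by omega : 0 < Nat.card (EndR (rW m)))

lemma qm_bound (m : ℕ) (hm : 4 ≤ m) : 1 - qm m ≤ 5 ^ (5 * (m + 1)) / (m.factorial : ℝ) := by
  have h1 := card_strict m hm
  have h2 := card_lower m
  have h3 := card_upper m hm
  have h4 : (0 : ℝ) < (m.factorial : ℝ) := by exact_mod_cast m.factorial_pos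
  unfold qm
  set A := Nat.card (BijR (rW m)) with hA
  set E := Nat.card (EndR (rW m)) with hE
  have hE0 : (0 : ℝ) < (E : ℝ) := by exact_mod_cast (by omega : 0 < E)
  have h5 : ((m.factorial : ℕ) : ℝ) ≤ (E : ℝ) := by exact_mod_cast (by omega : m.factorial ≤ E)
  have h6 : (E : ℝ) ≤ A + 5 ^ (5 * (m + 1)) := by exact_mod_cast h3
  have h7 : 1 - (A : ℝ) / E = (E - A) / E := by field_simp
  rw [h7]
  calc ((E : ℝ) - A) / E ≤ 5 ^ (5 * (m + 1)) / E := by
        apply div_le_div_of_nonneg_right _ hE0.le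
        linarith
    _ ≤ 5 ^ (5 * (m + 1)) / (m.factorial : ℝ) :=
        div_le_div_of_nonneg_left (by positivity) h4 h5

lemma bound_tendsto : Tendsto (fun m : ℕ => (5 : ℝ) ^ (5 * (m + 1)) / (m.factorial : ℝ)) atTop
    (𝓝 0) := by
  have h1 := (FloorSemiring.tendsto_pow_div_factorial_atTop ((5 : ℝ) ^ 5)).const_mul ((5 : ℝ) ^ 5)
  rw [mul_zero] at h1
  refine h1.congr (fun m => ?_)
  rw [← pow_mul, ← mul_div_assoc, ← pow_add]
  congr 2
  ring

/-- approximation by joins of the basic graph -/
lemma approx (x : ℝ) (hx0 : 0 < x) (hx1 : x < 1) (N : ℕ) (ε : ℝ) (hε : 0 < ε) :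
    ∃ G : LGraph, N ≤ G.n ∧ |G.q - x| < ε := by
  have hδ : 0 < min ε (1 - x) := lt_min hε (by linarith)
  obtain ⟨m, hmb, hm⟩ : ∃ m : ℕ, (5 : ℝ) ^ (5 * (m + 1)) / (m.factorial : ℝ) < min ε (1 - x) ∧
      max 4 N ≤ m := by
    have h1 := bound_tendsto.eventually (gt_mem_nhds hδ)
    obtain ⟨m, hm1, hm2⟩ := (h1.and (eventually_ge_atTop (max 4 N))).exists
    exact ⟨m, hm1, hm2⟩
  have hm4 : 4 ≤ m := (le_max_left _ _).trans hm
  have hmN : N ≤ m := (le_max_right _ _).trans hm
  have hb := qm_bound m hm4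
  have hq1 := qm_lt m hm4
  have hq0 := qm_pos m hm4
  have hqε : 1 - qm m < ε := lt_of_le_of_lt hb (lt_of_lt_of_le hmb (min_le_left _ _))
  have hqx : x < qm m := by
    have := lt_of_le_of_lt hb (lt_of_lt_of_le hmb (min_le_right _ _))
    linarith
  -- choice of the exponent
  have hex : ∃ j : ℕ, qm m ^ (j + 1) < x := by
    obtain ⟨j, hj⟩ := exists_pow_lt_of_lt_one hx0 hq1
    refine ⟨j, lt_of_le_of_lt ?_ hj⟩
    exact pow_le_pow_of_le_one hq0.le hq1.le (Nat.le_succ j)
  set j := Nat.find hex with hj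
  have hj1 : qm m ^ (j + 1) < x := Nat.find_spec hex
  have hj0 : j ≠ 0 := by
    intro h
    rw [h, zero_add, pow_one] at hj1
    linarith
  have hj2 : x ≤ qm m ^ j := by
    obtain ⟨i, hi⟩ := Nat.exists_eq_succ_of_ne_zero hj0
    have := Nat.find_min hex (m := i) (by rw [← hj, hi]; exact Nat.lt_succ_self i)
    rw [not_lt] at this
    rw [hi]; exact this
  obtain ⟨G, hG1, hG2⟩ := realise (J j (rW m)) (by
    intro p p' h h1
    exact rW_symm m _ _ (h h1.symm))
  refine ⟨G, ?_, ?_⟩
  · rw [hG1, Nat.card_prod, Nat.card_prod]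
    simp only [Nat.card_eq_fintype_card, Fintype.card_fin, Fintype.card_option]
    have : 1 ≤ j := Nat.one_le_iff_ne_zero.mpr hj0
    nlinarith
  · have hq : G.q = qm m ^ j := by
      rw [hG2, end_join (rW_symm m) (rW_tri m) (rW_nb m), bij_join (rW_symm m) (rW_tri m) (rW_nb m),
        card_wr, card_wr]
      unfold qm
      push_cast
      have h1 : (j.factorial : ℝ) ≠ 0 := by exact_mod_cast j.factorial_ne_zero
      rw [mul_div_mul_left _ _ h1, div_pow]
    rw [hq, abs_of_nonneg (by linarith)]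
    have h1 : qm m ^ (j + 1) = qm m ^ j * qm m := pow_succ _ _
    have h2 : qm m ^ j ≤ 1 := pow_le_one₀ hq0.le hq1.le
    have h3 : 0 ≤ qm m ^ j := pow_nonneg hq0.le _
    nlinarith

lemma q_mem (G : LGraph) : G.q ∈ Set.Icc (0 : ℝ) 1 := by
  constructor
  · unfold LGraph.q; positivity
  · unfold LGraph.q
    apply div_le_one_of_le₀
    · have h1 : G.Aut ⊆ G.EndS := fun f hf x y hxy => (hf.2 x y).mp hxy
      have h2 := Set.ncard_le_ncard h1 (Set.toFinite _)
      rw [Nat.card_coe_set_eq, Nat.card_coe_set_eq]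
      exact_mod_cast h2
    · positivity

theorem result : limitingSet = Set.Icc (0 : ℝ) 1 := by
  apply Set.Subset.antisymm
  · rintro x ⟨G, _, hG⟩
    exact isClosed_Icc.mem_of_tendsto hG (Eventually.of_forall (fun k => q_mem (G k)))
  · rintro x ⟨hx0, hx1⟩
    let y : ℕ → ℝ := fun k => x + (1 / 2 - x) * (1 / ((k : ℝ) + 2))
    have hk2 : ∀ k : ℕ, (0 : ℝ) < 1 / ((k : ℝ) + 2) ∧ 1 / ((k : ℝ) + 2) < 1 := by
      intro k
      have hk : (0 : ℝ) ≤ k := Nat.cast_nonneg k
      constructor
      · positivity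
      · rw [div_lt_one (by positivity)]; linarith
    have hy : ∀ k, 0 < y k ∧ y k < 1 := by
      intro k
      obtain ⟨h1, h2⟩ := hk2 k
      set t := 1 / ((k : ℝ) + 2) with ht
      have h3 : y k = x * (1 - t) + t / 2 := by
        show x + (1 / 2 - x) * t = _
        ring
      rw [h3]
      constructor
      · nlinarith
      · nlinarith
    have hG : ∀ k : ℕ, ∃ G : LGraph, k ≤ G.n ∧ |G.q - y k| < 1 / ((k : ℝ) + 1) := by
      intro k
      exact approx (y k) (hy k).1 (hy k).2 k _ (by positivity)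
    choose G hG1 hG2 using hG
    refine ⟨G, tendsto_atTop_mono hG1 tendsto_id, ?_⟩
    have hy' : Tendsto y atTop (𝓝 x) := by
      have h1 : Tendsto (fun k : ℕ => (1 : ℝ) / ((k : ℝ) + 2)) atTop (𝓝 0) := by
        have h2 := (tendsto_one_div_add_atTop_nhds_zero_nat (𝕜 := ℝ)).comp (tendsto_add_atTop_nat 1)
        refine h2.congr (fun k => ?_)
        simp only [Function.comp]
        push_cast
        congr 1
        ring
      have h3 := (h1.const_mul (1 / 2 - x)).const_add x
      rw [mul_zero, add_zero] at h3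
      exact h3
    have h0 : Tendsto (fun k => (G k).q - y k) atTop (𝓝 0) := by
      apply squeeze_zero_norm (fun k => (hG2 k).le)
      exact tendsto_one_div_add_atTop_nhds_zero_nat
    have h1 := h0.add hy'
    rw [zero_add] at h1
    exact h1.congr (fun k => by ring)

end Pool.Agent.Results.MP_e2735d_co.LimitSetInterval
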